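import Pool.Agent.Work.MP_684405_nt.Main

/-!
# Quasi-progressions in the values of quadratic polynomials

The question of Brown, Erdos and Freedman on the squares, answered in the negative in a stronger
form: uniformly for the values of all quadratic polynomials with a given leading coefficient, and
with a real difference `d > 0` and a real diameter `C`.
-/

set_option autoImplicit false

namespace Pool.Agent.Results.MP_684405_nt.QuadraticValues

/-- `A` contains a `k`-term quasi-progression of diameter `C`: elements `x 0, ..., x (k - 1)` of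
`A` and a number `d > 0` with `x i + d ≤ x (i + 1) ≤ x i + d + C` for all `i` with
`i + 1 < k`. -/
def ContainsQuasiProgression (A : Set ℤ) (C : ℝ) (k : ℕ) : Prop :=
  ∃ (x : ℕ → ℤ) (d : ℝ), 0 < d ∧ (∀ i < k, x i ∈ A) ∧
    ∀ i, i + 1 < k → (x i : ℝ) + d ≤ x (i + 1) ∧ (x (i + 1) : ℝ) ≤ x i + d + C

/-- The values `a n ^ 2 + b n + c`, `n` an integer. -/
def quadraticValues (a b c : ℤ) : Set ℤ := {m | ∃ n : ℤ, m = a * n ^ 2 + b * n + c}

/-- an increasing sequence of integer squares with integral data -/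
theorem key (a : ℤ) (ha : a ≠ 0) (C : ℕ) (hC : 0 < C) :
    ∃ K : ℕ, ∀ (b c : ℤ) (k : ℕ), K ≤ k → ∀ (x : ℕ → ℤ) (d : ℕ), 0 < d →
      (∀ i < k, x i ∈ quadraticValues a b c) →
        ¬ ∀ i, i + 1 < k → x i + d ≤ x (i + 1) ∧ x (i + 1) ≤ x i + d + C := by
  obtain ⟨K, hK⟩ := Pool.Agent.Work.MP_684405_nt.no_long_quasi_progression (4 * a.natAbs * C)
    (by have := Int.natAbs_pos.2 ha; positivity)
  refine ⟨K, fun b c k hk x d hd hx hqp => ?_⟩
  -- the squares `4 a x + b ^ 2 - 4 a c`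
  have hsq : ∀ i < k, ∃ y : ℤ, 4 * a * x i + (b ^ 2 - 4 * a * c) = y ^ 2 := by
    intro i hi
    obtain ⟨n, hn⟩ := hx i hi
    exact ⟨2 * a * n + b, by rw [hn]; ring⟩
  have hnat : ∀ i < k, IsSquare (4 * a * x i + (b ^ 2 - 4 * a * c)).toNat ∧
      0 ≤ 4 * a * x i + (b ^ 2 - 4 * a * c) := by
    intro i hi
    obtain ⟨y, hy⟩ := hsq i hi
    refine ⟨⟨y.natAbs, ?_⟩, by rw [hy]; positivity⟩
    have h5 : y ^ 2 = ((y.natAbs * y.natAbs : ℕ) : ℤ) := by rw [Int.natAbs_mul_self, sq]
    rw [hy, h5, Int.toNat_natCast]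
  have hd' : 0 < 4 * a.natAbs * d := by
    have := Int.natAbs_pos.2 ha
    positivity
  rcases lt_or_gt_of_ne ha with hneg | hpos
  · -- negative leading coefficient: reverse the order
    refine hK (fun i => (4 * a * x (K - 1 - i) + (b ^ 2 - 4 * a * c)).toNat)
      (4 * a.natAbs * d) hd' (fun i hi => (hnat _ (by omega)).1) ?_
    intro i hi
    have h1 := hqp (K - 1 - (i + 1)) (by omega)
    have h2 : K - 1 - (i + 1) + 1 = K - 1 - i := by omega
    rw [h2] at h1
    have h3 := (hnat (K - 1 - i) (by omega)).2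
    have h4 := (hnat (K - 1 - (i + 1)) (by omega)).2
    have habs : (a.natAbs : ℤ) = -a := by omega
    have e1 : (((4 * a * x (K - 1 - i) + (b ^ 2 - 4 * a * c)).toNat : ℕ) : ℤ) =
        4 * a * x (K - 1 - i) + (b ^ 2 - 4 * a * c) := Int.toNat_of_nonneg h3
    have e2 : (((4 * a * x (K - 1 - (i + 1)) + (b ^ 2 - 4 * a * c)).toNat : ℕ) : ℤ) =
        4 * a * x (K - 1 - (i + 1)) + (b ^ 2 - 4 * a * c) := Int.toNat_of_nonneg h4
    constructor
    · zify
      rw [e1, e2, ← Int.natCast_natAbs, habs]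
      nlinarith [h1.1, h1.2]
    · zify
      rw [e1, e2, ← Int.natCast_natAbs, habs]
      nlinarith [h1.1, h1.2]
  · refine hK (fun i => (4 * a * x i + (b ^ 2 - 4 * a * c)).toNat)
      (4 * a.natAbs * d) hd' (fun i hi => (hnat _ (by omega)).1) ?_
    intro i hi
    have h1 := hqp i (by omega)
    have h3 := (hnat i (by omega)).2
    have h4 := (hnat (i + 1) (by omega)).2
    have habs : (a.natAbs : ℤ) = a := by omega
    have e1 : (((4 * a * x i + (b ^ 2 - 4 * a * c)).toNat : ℕ) : ℤ) =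
        4 * a * x i + (b ^ 2 - 4 * a * c) := Int.toNat_of_nonneg h3
    have e2 : (((4 * a * x (i + 1) + (b ^ 2 - 4 * a * c)).toNat : ℕ) : ℤ) =
        4 * a * x (i + 1) + (b ^ 2 - 4 * a * c) := Int.toNat_of_nonneg h4
    constructor
    · zify
      rw [e1, e2, ← Int.natCast_natAbs, habs]
      nlinarith [h1.1, h1.2]
    · zify
      rw [e1, e2, ← Int.natCast_natAbs, habs]
      nlinarith [h1.1, h1.2]

/-- For every integer `a ≠ 0` and every real `C` there is a `K` such that for all integers `b`,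
`c` the set of values of `a n ^ 2 + b n + c` contains no quasi-progression of diameter `C` with
`K` or more terms.  In particular (`a = 1`, `b = c = 0`) the squares do not contain arbitrarily
long quasi-progressions of bounded diameter. -/
theorem result (a : ℤ) (ha : a ≠ 0) (C : ℝ) :
    ∃ K : ℕ, ∀ (b c : ℤ) (k : ℕ), K ≤ k →
      ¬ ContainsQuasiProgression (quadraticValues a b c) C k := by
  obtain ⟨C', hC'⟩ := exists_nat_ge C
  obtain ⟨K, hK⟩ := key a ha (C' + 1) (Nat.succ_pos _)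
  refine ⟨K, fun b c k hk => ?_⟩
  rintro ⟨x, d, hd, hx, hqp⟩
  have hd1 : 0 < ⌈d⌉₊ := Nat.ceil_pos.2 hd
  refine hK b c k hk x ⌈d⌉₊ hd1 hx fun i hi => ?_
  obtain ⟨h1, h2⟩ := hqp i hi
  constructor
  · -- the difference is an integer `≥ d`
    have h3 : d ≤ ((x (i + 1) - x i : ℤ) : ℝ) := by push_cast; linarith
    have h4 : ⌈d⌉ ≤ x (i + 1) - x i := Int.ceil_le.2 h3
    have h5 : ((⌈d⌉₊ : ℕ) : ℤ) = ⌈d⌉ := Int.natCast_ceil_eq_ceil hd.le
    rw [h5]
    linarith
  · have h3 : (x (i + 1) : ℝ) ≤ ((x i + (⌈d⌉₊ : ℕ) + ((C' + 1 : ℕ) : ℤ) : ℤ) : ℝ) := by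
      push_cast
      have := Nat.le_ceil d
      linarith
    exact_mod_cast h3

end Pool.Agent.Results.MP_684405_nt.QuadraticValues
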